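import Mathlib

set_option autoImplicit false

/-!
# Triples of points of a parabola whose sum lies again on the parabola

If `a + b + c = 0` then the sum of the three points `(1/a, 1/a^2)`, `(1/b, 1/b^2)`, `(1/c, 1/c^2)`
is of the form `(x, x^2)`. (Construction of the proof of `S11804`.)
-/

namespace Pool.Agent.ConvEmb

/-- The real parameter attached to a vertex index. -/
noncomputable def tv (m i : ℕ) : ℝ :=
  if i < m then ((i : ℝ) + 1)
  else if i < 2 * m then ((m : ℝ) ^ 2 + ((i : ℝ) - m) + 1)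
  else -((m : ℝ) ^ 2 + ((i : ℝ) - 2 * m) + 2)

/-- The abscissa of the sum over the edge `(u, v)`. -/
noncomputable def X (m u v : ℕ) : ℝ :=
  1 / ((u : ℝ) + 1) + 1 / ((m : ℝ) ^ 2 + v + 1) - 1 / ((m : ℝ) ^ 2 + u + v + 2)

theorem tv_ne_zero (m i : ℕ) : tv m i ≠ 0 := by
  unfold tv
  split_ifs with h1 h2
  · positivity
  · have : (m : ℝ) ≤ i := by exact_mod_cast not_lt.mp h1
    nlinarith [sq_nonneg (m : ℝ)]
  · have : (2 * m : ℝ) ≤ i := by exact_mod_cast not_lt.mp h2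
    nlinarith [sq_nonneg (m : ℝ)]

theorem tv_injective (m : ℕ) : Function.Injective (tv m) := by
  intro i j hij
  unfold tv at hij
  have key : ∀ a : ℕ, (m : ℝ) ^ 2 = ((m ^ 2 : ℕ) : ℝ) := by intro a; push_cast; rfl
  have hm2 : (m : ℝ) ≤ (m : ℝ) ^ 2 := by
    rw [key m]; exact_mod_cast Nat.le_self_pow (by norm_num) m
  split_ifs at hij with h1 h2 h3 h4 h5 h6 h7 h8 <;>
  · try rw [not_lt] at h1
    try rw [not_lt] at h2
    try rw [not_lt] at h3
    try rw [not_lt] at h4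
    try rw [not_lt] at h5
    try rw [not_lt] at h6
    try rw [not_lt] at h7
    try rw [not_lt] at h8
    rify at *
    linarith

theorem X_gt (m u v : ℕ) : 1 / ((u : ℝ) + 1) < X m u v := by
  unfold X
  have h : 1 / ((m : ℝ) ^ 2 + u + v + 2) < 1 / ((m : ℝ) ^ 2 + v + 1) := by
    apply one_div_lt_one_div_of_lt
    · positivity
    · have : (0 : ℝ) ≤ u := by positivity
      linarith
  linarith

theorem X_lt_of_lt {m u v u' v' : ℕ} (h : u < u') (hu' : u' < m) : X m u' v' < X m u v := by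
  refine lt_of_le_of_lt ?_ (X_gt m u v)
  have hu0 : (0 : ℝ) ≤ u := by positivity
  have hu : (u : ℝ) + 1 ≤ u' := by exact_mod_cast h
  have hm : (u' : ℝ) + 1 ≤ m := by exact_mod_cast hu'
  have hv : (0 : ℝ) ≤ v' := by positivity
  have hm0 : (0 : ℝ) < m := by linarith
  have hm1 : (1 : ℝ) ≤ m := by linarith
  -- the small term
  have e1 : 1 / ((m : ℝ) ^ 2 + v' + 1) - 1 / ((m : ℝ) ^ 2 + u' + v' + 2) ≤ 1 / (m : ℝ) ^ 2 := by
    have hb : (0 : ℝ) < (m : ℝ) ^ 2 + v' + 1 := by positivity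
    have hc : (0 : ℝ) < (m : ℝ) ^ 2 + u' + v' + 2 := by positivity
    have : 1 / ((m : ℝ) ^ 2 + v' + 1) - 1 / ((m : ℝ) ^ 2 + u' + v' + 2)
        = (u' + 1) / (((m : ℝ) ^ 2 + v' + 1) * ((m : ℝ) ^ 2 + u' + v' + 2)) := by
      field_simp
      ring
    rw [this, div_le_div_iff₀ (by positivity) (by positivity)]
    have h1 : (m : ℝ) ^ 2 ≤ (m : ℝ) ^ 2 + v' + 1 := by linarith
    have h2 : ((u' : ℝ) + 1) ≤ (m : ℝ) ^ 2 + u' + v' + 2 := by nlinarith
    nlinarith [mul_le_mul h2 h1 (by positivity) (by positivity)]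
  have e2 : 1 / (m : ℝ) ^ 2 ≤ 1 / ((u : ℝ) + 1) - 1 / ((u' : ℝ) + 1) := by
    have ha : (0 : ℝ) < (u : ℝ) + 1 := by positivity
    have ha' : (0 : ℝ) < (u' : ℝ) + 1 := by positivity
    have : 1 / ((u : ℝ) + 1) - 1 / ((u' : ℝ) + 1) = (u' - u) / (((u : ℝ) + 1) * ((u' : ℝ) + 1)) := by
      field_simp
      ring
    rw [this, div_le_div_iff₀ (by positivity) (by positivity)]
    have h1 : ((u : ℝ) + 1) * ((u' : ℝ) + 1) ≤ (m : ℝ) * m :=
      mul_le_mul (by linarith) hm (by positivity) (by positivity)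
    nlinarith
  unfold X
  linarith

theorem X_lt_of_lt' {m u v v' : ℕ} (h : v < v') : X m u v' < X m u v := by
  unfold X
  have hu0 : (0 : ℝ) ≤ u := by positivity
  have hv0 : (0 : ℝ) ≤ v := by positivity
  have hv : (v : ℝ) + 1 ≤ v' := by exact_mod_cast h
  have e : ∀ w : ℝ, 0 ≤ w → 1 / ((m : ℝ) ^ 2 + w + 1) - 1 / ((m : ℝ) ^ 2 + u + w + 2)
        = (u + 1) / (((m : ℝ) ^ 2 + w + 1) * ((m : ℝ) ^ 2 + u + w + 2)) := by
    intro w hw
    have hb : (0 : ℝ) < (m : ℝ) ^ 2 + w + 1 := by positivity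
    have hc : (0 : ℝ) < (m : ℝ) ^ 2 + u + w + 2 := by positivity
    field_simp
    ring
  have e1 := e v hv0
  have e2 := e v' (by linarith)
  have : (u + 1) / (((m : ℝ) ^ 2 + v' + 1) * ((m : ℝ) ^ 2 + u + v' + 2)) <
      (u + 1) / (((m : ℝ) ^ 2 + v + 1) * ((m : ℝ) ^ 2 + u + v + 2)) := by
    apply div_lt_div_of_pos_left (by positivity) (by positivity)
    apply mul_lt_mul (by linarith) (by linarith) (by positivity) (by positivity)
  linarith

theorem X_inj {m u v u' v' : ℕ} (hu : u < m) (hu' : u' < m) (h : X m u v = X m u' v') :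
    u = u' ∧ v = v' := by
  rcases lt_trichotomy u u' with h1 | h1 | h1
  · exact absurd h (X_lt_of_lt h1 hu').ne'
  · subst h1
    refine ⟨rfl, ?_⟩
    rcases lt_trichotomy v v' with h2 | h2 | h2
    · exact absurd h (X_lt_of_lt' h2).ne'
    · exact h2
    · exact absurd h (X_lt_of_lt' h2).ne
  · exact absurd h (X_lt_of_lt h1 hu).ne

/-- The edge attached to the pair `(u, v)`. -/
def edge (m : ℕ) (q : Fin m × Fin m) : Finset (Fin (4 * m)) :=
  {⟨q.1.val, by have := q.1.isLt; omega⟩, ⟨m + q.2.val, by have := q.2.isLt; omega⟩,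
    ⟨2 * m + (q.1.val + q.2.val), by have := q.1.isLt; have := q.2.isLt; omega⟩}

theorem edge_card (m : ℕ) (q : Fin m × Fin m) : (edge m q).card = 3 := by
  have h1 := q.1.isLt
  have h2 := q.2.isLt
  unfold edge
  rw [Finset.card_eq_three]
  refine ⟨_, _, _, ?_, ?_, ?_, rfl⟩
  · simp only [ne_eq, Fin.mk.injEq]; omega
  · simp only [ne_eq, Fin.mk.injEq]; omega
  · simp only [ne_eq, Fin.mk.injEq]; omega


/-- the three summands of an edge -/
theorem edge_sum_gen (m : ℕ) (q : Fin m × Fin m) (F : ℕ → ℝ) :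
    ∑ v ∈ edge m q, F v.val = F q.1.val + (F (m + q.2.val) + F (2 * m + (q.1.val + q.2.val))) := by
  obtain ⟨⟨u, hu⟩, ⟨v, hv⟩⟩ := q
  have hne1 : (⟨u, by omega⟩ : Fin (4 * m)) ∉
      ({⟨m + v, by omega⟩, ⟨2 * m + (u + v), by omega⟩} : Finset (Fin (4 * m))) := by
    simp only [Finset.mem_insert, Finset.mem_singleton, Fin.mk.injEq]; omega
  have hne2 : (⟨m + v, by omega⟩ : Fin (4 * m)) ∉
      ({⟨2 * m + (u + v), by omega⟩} : Finset (Fin (4 * m))) := by
    simp only [Finset.mem_singleton, Fin.mk.injEq]; omega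
  unfold edge
  rw [Finset.sum_insert hne1, Finset.sum_insert hne2, Finset.sum_singleton]

theorem tv_values (m u v : ℕ) (hu : u < m) (hv : v < m) :
    tv m u = (u : ℝ) + 1 ∧ tv m (m + v) = (m : ℝ) ^ 2 + v + 1 ∧
      tv m (2 * m + (u + v)) = -((m : ℝ) ^ 2 + u + v + 2) := by
  refine ⟨?_, ?_, ?_⟩
  · unfold tv; rw [if_pos hu]
  · unfold tv; rw [if_neg (by omega), if_pos (by omega)]; push_cast; ring
  · unfold tv; rw [if_neg (by omega), if_neg (by omega)]; push_cast; ring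

theorem edge_sum_one (m : ℕ) (q : Fin m × Fin m) :
    ∑ v ∈ edge m q, 1 / tv m v.val = X m q.1 q.2 := by
  rw [edge_sum_gen m q (fun i => 1 / tv m i)]
  obtain ⟨t1, t2, t3⟩ := tv_values m q.1.val q.2.val q.1.isLt q.2.isLt
  rw [t1, t2, t3]
  unfold X
  rw [div_neg]; ring

theorem edge_sum_sq (m : ℕ) (q : Fin m × Fin m) :
    ∑ v ∈ edge m q, (1 / tv m v.val) ^ 2 = (X m q.1 q.2) ^ 2 := by
  rw [edge_sum_gen m q (fun i => (1 / tv m i) ^ 2)]
  obtain ⟨t1, t2, t3⟩ := tv_values m q.1.val q.2.val q.1.isLt q.2.isLt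
  rw [t1, t2, t3]
  have hu0 : (0 : ℝ) < ((q.1.val : ℕ) : ℝ) + 1 := by positivity
  have hv0 : (0 : ℝ) < (m : ℝ) ^ 2 + ((q.2.val : ℕ) : ℝ) + 1 := by positivity
  have hw : (m : ℝ) ^ 2 + ((q.1.val : ℕ) : ℝ) + ((q.2.val : ℕ) : ℝ) + 2 =
      (((q.1.val : ℕ) : ℝ) + 1) + ((m : ℝ) ^ 2 + ((q.2.val : ℕ) : ℝ) + 1) := by ring
  unfold X
  rw [hw]
  generalize ((q.1.val : ℕ) : ℝ) + 1 = a at *
  generalize (m : ℝ) ^ 2 + ((q.2.val : ℕ) : ℝ) + 1 = b at *
  have hw0 : (0 : ℝ) < a + b := by positivity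
  rw [div_neg]
  field_simp
  ring

end Pool.Agent.ConvEmb
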